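import Pool.Agent.H89.FLT.S

set_option autoImplicit false

open Matrix Polynomial

namespace Pool.FLT

theorem fin (hUPP : UPPStmt) (hLOW : LOWStmt) : FINStmt := by
  intro n hn Γ hΓ
  obtain ⟨C, hC, h1⟩ := hUPP n hn Γ hΓ
  obtain ⟨c, T0, hc, h2⟩ := hLOW n hn Γ hΓ
  refine ⟨c, C, max T0 1, hc, hC, ?_⟩
  intro T hT
  obtain ⟨h3, h4⟩ := h1 T ((le_max_right _ _).trans hT)
  exact ⟨h3, h2 T ((le_max_left _ _).trans hT) h3, h4⟩

end Pool.FLT
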