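import Pool.Agent.H89.FLT.S

set_option autoImplicit false

open Matrix Polynomial

namespace Pool.FLT

theorem gen (hIRR : IRRStmt) (hMUL : MULStmt) (hSEP : SEPStmt) (hPCK : PCKStmt) (hDIM : DIMStmt) :
    GENStmt := by
  intro n hn
  obtain ⟨C1, hC1, h1⟩ := hPCK n hn
  obtain ⟨C2, hC2, h2⟩ := hSEP n
  have hpp : n.minFac.Prime := Nat.minFac_prime (by omega)
  have hp2 : 2 ≤ n.minFac := hpp.two_le
  have hdiv : n / n.minFac ≤ n / 2 := Nat.div_le_div_left hp2 (by norm_num)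
  obtain ⟨e, he⟩ : ∃ e : ℕ, e = n - n / n.minFac := ⟨_, rfl⟩
  have he1 : 1 ≤ e := by omega
  have hex : ex n = (e : ℝ) := by rw [ex, he]
  have heR : (1 : ℝ) ≤ (e : ℝ) := by exact_mod_cast he1
  refine ⟨C2 + C1 + 1, by positivity, ?_⟩
  intro g B' V hV hB' hcov hvol
  rw [hex]
  have hb : 1 ≤ C1 * V + 1 := by nlinarith
  set ρ : ℝ := (C1 * V + 1) ^ (1 / (e : ℝ)) with hρ
  have hρ1 : 1 ≤ ρ := Real.one_le_rpow hb (by positivity)
  have hρe : ρ ^ e = C1 * V + 1 := by
    rw [hρ, ← Real.rpow_natCast, ← Real.rpow_mul (by linarith)]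
    rw [one_div, inv_mul_cancel₀ (by positivity), Real.rpow_one]
  have hVe : 1 ≤ V ^ (1 / (e : ℝ)) := Real.one_le_rpow hV (by positivity)
  have hρle : ρ ≤ (C1 + 1) * V ^ (1 / (e : ℝ)) := by
    have h3 : C1 * V + 1 ≤ (C1 + 1) * V := by nlinarith
    calc ρ ≤ ((C1 + 1) * V) ^ (1 / (e : ℝ)) :=
          Real.rpow_le_rpow (by linarith) h3 (by positivity)
      _ = (C1 + 1) ^ (1 / (e : ℝ)) * V ^ (1 / (e : ℝ)) :=
          Real.mul_rpow (by linarith) (by linarith)
      _ ≤ (C1 + 1) ^ (1 : ℝ) * V ^ (1 / (e : ℝ)) := by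
          refine mul_le_mul_of_nonneg_right ?_ (by linarith)
          refine Real.rpow_le_rpow_of_exponent_le (by linarith) ?_
          rw [div_le_one (by linarith)]
          exact heR
      _ = _ := by rw [Real.rpow_one]
  obtain ⟨η, d, hD, hd, hsep⟩ := h2 g ρ (by linarith)
  obtain ⟨η0, d0, hD0, hirr0⟩ := hIRR n hn g B' hB' hcov
  obtain ⟨k, μ, hμ, hch, hk⟩ := hMUL n hn g η0 η d0 d hD0 hirr0 hD
  have hn0 : 0 < n := by omega
  have hk1 : 1 ≤ k := by
    have h3 := hk ⟨0, hn0⟩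
    rw [← h3]
    refine Finset.card_pos.mpr ⟨⟨0, hn0⟩, ?_⟩
    simp
  have hdeg : n = k * μ.natDegree := by
    have h3 : (chQ η).natDegree = n := by
      rw [chQ, (Matrix.charpoly_monic η).natDegree_map, Matrix.charpoly_natDegree_eq_dim,
        Fintype.card_fin]
    rw [hch, Polynomial.natDegree_pow] at h3
    exact h3.symm
  have hbound : ∀ i, |d i| ≤ Real.exp ((C2 + C1 + 1) * V ^ (1 / (e : ℝ))) := by
    intro i
    refine (hd i).trans ?_
    have h3 : C2 ≤ Real.exp C2 := by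
      have := Real.add_one_le_exp C2
      linarith
    calc C2 * Real.exp ρ ≤ Real.exp C2 * Real.exp ρ :=
          mul_le_mul_of_nonneg_right h3 (Real.exp_pos _).le
      _ = Real.exp (C2 + ρ) := (Real.exp_add _ _).symm
      _ ≤ _ := by
          refine Real.exp_le_exp.mpr ?_
          nlinarith
  rcases Nat.lt_or_ge k 2 with hk2 | hk2
  · have hk' : k = 1 := by omega
    refine ⟨η, d, hD, ?_, ?_, hbound⟩
    · intro i j hij
      have h3 := hk i
      rw [hk', Finset.card_eq_one] at h3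
      obtain ⟨a, ha⟩ := h3
      have h4 : i ∈ ({a} : Finset (Fin n)) := by
        rw [← ha]
        simp
      have h5 : j ∈ ({a} : Finset (Fin n)) := by
        rw [← ha]
        simp [hij]
      rw [Finset.mem_singleton] at h4 h5
      rw [h4, h5]
    · rw [hch, hk', pow_one]
      exact hμ
  · exfalso
    have h3 : n.minFac ≤ k := Nat.minFac_le_of_dvd hk2 ⟨_, hdeg⟩
    have h4 : μ.natDegree ≤ n / n.minFac := by
      rw [Nat.le_div_iff_mul_le hpp.pos]
      calc μ.natDegree * n.minFac ≤ μ.natDegree * k := Nat.mul_le_mul_left _ h3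
        _ = n := by rw [mul_comm]; exact hdeg.symm
    have h5 := hDIM n k μ.natDegree d (by omega) hdeg hk
    have h6 := h1 g B' V ρ (Wd d) hB' hcov (by linarith) hvol hρ1 (fun x hx i j hij => hsep i j hij x hx)
    have h7 : e ≤ n - 1 - Module.finrank ℝ (Wd d) := by omega
    have h8 : ρ ^ e ≤ ρ ^ (n - 1 - Module.finrank ℝ (Wd d)) := pow_le_pow_right₀ hρ1 h7
    rw [hρe] at h8
    linarith

end Pool.FLT
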