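import Pool.Agent.H89.FLT.S

set_option autoImplicit false

open Matrix Polynomial

namespace Pool.FLT

/-- the value of `PH n H t` at `2 H + t'` -/
theorem PH_eval {n H t t' : ℕ} (hn : 2 ≤ n) (hH : 1 ≤ H) (ht' : t' ≤ H) (h : PH n H t = PH n H t') : t = t' := by
  have h1 : (PH n H t').eval (2 * (H : ℤ) + t') = 1 := by
    unfold PH
    rw [Polynomial.eval_add, Polynomial.eval_one, Polynomial.eval_prod]
    have h2 : ∏ j : Fin n, (X - C (aH n H t' j)).eval (2 * (H : ℤ) + t') = 0 := by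
      refine Finset.prod_eq_zero (Finset.mem_univ (⟨1, by omega⟩ : Fin n)) ?_
      simp [aH]
    rw [h2, zero_add]
  rw [← h] at h1
  unfold PH at h1
  rw [Polynomial.eval_add, Polynomial.eval_one, Polynomial.eval_prod] at h1
  have h3 : ∏ j : Fin n, (X - C (aH n H t j)).eval (2 * (H : ℤ) + t') = 0 := by linarith
  rw [Finset.prod_eq_zero_iff] at h3
  obtain ⟨j, -, hj⟩ := h3
  rw [Polynomial.eval_sub, Polynomial.eval_X, Polynomial.eval_C] at hj
  unfold aH at hj
  by_cases hj1 : (j : ℕ) = 1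
  · rw [if_pos hj1, hj1] at hj
    push_cast at hj
    have : (t : ℤ) = t' := by linarith
    exact_mod_cast this
  · exfalso
    rw [if_neg hj1] at hj
    have hH' : (1 : ℤ) ≤ H := by exact_mod_cast hH
    have ht'' : (t' : ℤ) ≤ H := by exact_mod_cast ht'
    have ht0 : (0 : ℤ) ≤ t' := Int.natCast_nonneg t'
    rcases Nat.lt_or_ge (j : ℕ) 1 with h4 | h4
    · have h5 : (j : ℕ) = 0 := by omega
      rw [h5] at hj
      push_cast at hj
      linarith
    · have h5 : 2 ≤ (j : ℕ) := by omega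
      have h6 : (2 : ℤ) ≤ ((j : ℕ) : ℤ) := by exact_mod_cast h5
      nlinarith

theorem fl_top_of_eq {n : ℕ} {Γ : Subgroup (GZ n)} {g g' : GR n} (h : fl Γ g = fl Γ g') :
    fl ⊤ g = fl ⊤ g' := by
  have key : ∀ g1 g2 : GR n, fl Γ g1 = fl Γ g2 → fl ⊤ g1 ⊆ fl ⊤ g2 := by
    intro g1 g2 h12 u hu
    obtain ⟨γ, -, x, -, k, hk, rfl⟩ := hu
    have h1 : g1 * ee x * k ∈ fl Γ g1 := ⟨1, Γ.one_mem, x, trivial, k, hk, by rw [map_one, one_mul]⟩
    rw [h12] at h1
    obtain ⟨γ', -, x', -, k', hk', h2⟩ := h1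
    refine ⟨γ * γ', trivial, x', trivial, k', hk', ?_⟩
    rw [map_mul]
    calc inc n γ * g1 * ee x * k = inc n γ * (g1 * ee x * k) := by group
      _ = inc n γ * (inc n γ' * g2 * ee x' * k') := by rw [h2]
      _ = _ := by group
  exact Set.Subset.antisymm (key g g' h) (key g' g h.symm)

theorem low (hMEM : MEMStmt) (hFIB : FIBStmt) : LOWStmt := by
  intro n hn Γ hΓ
  obtain ⟨C1, H0, hC1, h1⟩ := hMEM n hn Γ hΓ
  obtain ⟨C2, hC2, h2⟩ := hFIB n hn
  have hnR : (1 : ℝ) ≤ (n : ℝ) - 1 := by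
    have : (2 : ℝ) ≤ n := by exact_mod_cast hn
    linarith
  have hn1 : ((n - 1 : ℕ) : ℝ) = (n : ℝ) - 1 := by
    rw [Nat.cast_sub (by omega)]
    norm_num
  set c1 : ℝ := 1 / (C1 + 1) with hc1
  have hc1pos : 0 < c1 := by positivity
  have hc1le : c1 ≤ 1 := by
    rw [hc1, div_le_one (by positivity)]
    linarith
  have hC1c1 : C1 * c1 < 1 := by
    rw [hc1, mul_one_div, div_lt_one (by positivity)]
    linarith
  -- eventually `C2 ((1 + C1) L)^(n-1) ≤ exp (L/2)`
  have hev : ∃ L0 : ℝ, ∀ L ≥ L0, C2 * ((1 + C1) * L) ^ (n - 1) ≤ Real.exp (L / 2) := by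
    have h3 := Real.tendsto_pow_mul_exp_neg_atTop_nhds_zero (n - 1)
    have h4 : Filter.Tendsto (fun L : ℝ => L / 2) Filter.atTop Filter.atTop :=
      Filter.tendsto_id.atTop_div_const (by norm_num)
    have h5 := h3.comp h4
    have h6 : 0 < 1 / (C2 * (2 * (1 + C1)) ^ (n - 1)) := by positivity
    have h7 := h5.eventually (gt_mem_nhds h6)
    obtain ⟨L0, hL0⟩ := Filter.eventually_atTop.mp h7
    refine ⟨L0, fun L hL => ?_⟩
    have h8 := hL0 L hL
    simp only [Function.comp] at h8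
    rw [lt_div_iff₀ (by positivity)] at h8
    have h9 : (L / 2) ^ (n - 1) * Real.exp (-(L / 2)) * (C2 * (2 * (1 + C1)) ^ (n - 1)) =
        (C2 * ((1 + C1) * L) ^ (n - 1)) * Real.exp (-(L / 2)) := by
      have : (L / 2) ^ (n - 1) * (2 * (1 + C1)) ^ (n - 1) = ((1 + C1) * L) ^ (n - 1) := by
        rw [← mul_pow]
        congr 1
        ring
      calc _ = C2 * ((L / 2) ^ (n - 1) * (2 * (1 + C1)) ^ (n - 1)) * Real.exp (-(L / 2)) := by ring
        _ = _ := by rw [this]
    rw [h9, Real.exp_neg, ← div_eq_mul_inv, div_lt_one (Real.exp_pos _)] at h8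
    exact h8.le
  obtain ⟨L0, hL0⟩ := hev
  set L1 : ℝ := max (max L0 1) (Real.log (H0 + 2)) with hL1
  refine ⟨c1 / 2, max 1 ((L1 / c1) ^ (n - 1)), by positivity, ?_⟩
  intro T hT hfin
  have hT1 : 1 ≤ T := (le_max_left _ _).trans hT
  have hT2 : (L1 / c1) ^ (n - 1) ≤ T := (le_max_right _ _).trans hT
  have hL1pos : 1 ≤ L1 := (le_max_right L0 1).trans (le_max_left _ _)
  set L : ℝ := c1 * T ^ (1 / ((n : ℝ) - 1)) with hL
  have hTr : 0 ≤ T ^ (1 / ((n : ℝ) - 1)) := Real.rpow_nonneg (by linarith) _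
  have hTp : (T ^ (1 / ((n : ℝ) - 1))) ^ (n - 1) = T := by
    rw [← Real.rpow_natCast, ← Real.rpow_mul (by linarith), hn1, one_div,
      inv_mul_cancel₀ (by linarith), Real.rpow_one]
  have hLL1 : L1 ≤ L := by
    have h3 : L1 / c1 ≤ T ^ (1 / ((n : ℝ) - 1)) := by
      have h4 : ((L1 / c1) ^ (n - 1)) ^ (1 / ((n : ℝ) - 1)) = L1 / c1 := by
        rw [← Real.rpow_natCast, ← Real.rpow_mul (by positivity), hn1, mul_one_div,
          div_self (by linarith), Real.rpow_one]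
      rw [← h4]
      exact Real.rpow_le_rpow (by positivity) hT2 (by positivity)
    rw [div_le_iff₀ hc1pos] at h3
    rw [hL]
    linarith
  have hL1' : 1 ≤ L := hL1pos.trans hLL1
  have hLL0 : L0 ≤ L := ((le_max_left L0 1).trans (le_max_left _ _)).trans hLL1
  have hLH : Real.log (H0 + 2) ≤ L := (le_max_right _ _).trans hLL1
  have hLT : C1 * L ^ (n - 1) < T := by
    rw [hL, mul_pow, hTp]
    have h3 : c1 ^ (n - 1) ≤ c1 := by
      calc c1 ^ (n - 1) ≤ c1 ^ 1 := pow_le_pow_of_le_one hc1pos.le hc1le (by omega)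
        _ = c1 := pow_one _
    have h4 : C1 * (c1 ^ (n - 1) * T) ≤ (C1 * c1) * T := by
      have h5 : C1 * c1 ^ (n - 1) ≤ C1 * c1 := mul_le_mul_of_nonneg_left h3 hC1.le
      calc C1 * (c1 ^ (n - 1) * T) = (C1 * c1 ^ (n - 1)) * T := by ring
        _ ≤ _ := mul_le_mul_of_nonneg_right h5 (by linarith)
    have h6 : (C1 * c1) * T < 1 * T := mul_lt_mul_of_pos_right hC1c1 (by linarith)
    linarith
  set H : ℕ := ⌊Real.exp L⌋₊ with hH
  have hHle : (H : ℝ) ≤ Real.exp L := Nat.floor_le (Real.exp_pos _).le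
  have hHlt : Real.exp L < (H : ℝ) + 1 := Nat.lt_floor_add_one _
  have hH0 : H0 + 2 ≤ H := by
    refine Nat.le_floor ?_
    push_cast
    rw [← Real.exp_log (by positivity : (0 : ℝ) < H0 + 2)]
    exact Real.exp_le_exp.mpr hLH
  have hHpos : (0 : ℝ) < H := by
    have : 0 < H := by omega
    exact_mod_cast this
  have hlogH : Real.log H ≤ L := by
    rw [← Real.log_exp L]
    exact Real.log_le_log hHpos hHle
  have hlog0 : 0 ≤ Real.log H := Real.log_nonneg (by exact_mod_cast (by omega : 1 ≤ H))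
  choose g η θ hD hch hx hmem using fun t : Fin (H + 1) =>
    h1 H t (by omega) (by omega)
  have hmemT : ∀ t, fl Γ (g t) ∈ NX Γ T := by
    intro t
    refine hmem t T (lt_of_le_of_lt ?_ hLT)
    exact mul_le_mul_of_nonneg_left (pow_le_pow_left₀ hlog0 hlogH _) hC1.le
  set ρ : ℝ := (1 + C1) * L with hρ
  have hρ1 : 1 ≤ ρ := by nlinarith
  -- the fibres
  classical
  have hfib : ∀ F ∈ hfin.toFinset, ((Finset.univ.filter fun t : Fin (H + 1) => fl Γ (g t) = F).card : ℝ) ≤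
      C2 * ρ ^ (n - 1) := by
    intro F _
    rcases (Finset.univ.filter fun t : Fin (H + 1) => fl Γ (g t) = F).eq_empty_or_nonempty with h3 | ⟨t0, ht0⟩
    · rw [h3]
      simp only [Finset.card_empty, Nat.cast_zero]
      positivity
    · rw [Finset.mem_filter] at ht0
      obtain ⟨hPf, hPc⟩ := h2 ρ (g t0) hρ1
      refine le_trans ?_ hPc
      have h4 : (Finset.univ.filter fun t : Fin (H + 1) => fl Γ (g t) = F).card ≤
          {P : ℤ[X] | ∃ (g' : GR n) (η : Matrix (Fin n) (Fin n) ℤ) (θ : Fin n → ℝ), Dg g' η θ ∧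
            η.charpoly = P ∧ fl ⊤ g' = fl ⊤ (g t0) ∧ ∃ x ∈ Lam g', ‖x‖ ≤ ρ ∧
            ∀ i, |θ i| = Real.exp (co x i)}.ncard := by
        rw [Set.ncard_eq_toFinset_card _ hPf]
        refine Finset.card_le_card_of_injOn (fun t => PH n H t) ?_ ?_
        · intro t ht
          rw [Finset.mem_coe, Finset.mem_filter] at ht
          rw [Finset.mem_coe, Set.Finite.mem_toFinset]
          obtain ⟨x, hxL, hxn, hxθ⟩ := hx t
          refine ⟨g t, η t, θ t, hD t, hch t, ?_, x, hxL, ?_, hxθ⟩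
          · exact fl_top_of_eq (ht.2.trans ht0.2.symm)
          · refine hxn.trans ?_
            rw [hρ]
            nlinarith
        · intro t _ t' _ h5
          have h6 := PH_eval hn (by omega) (by omega : (t' : ℕ) ≤ H) h5
          exact Fin.ext h6
      exact_mod_cast h4
  have hcount : ((H : ℝ) + 1) ≤ (NX Γ T).ncard * (C2 * ρ ^ (n - 1)) := by
    have h3 : (Finset.univ : Finset (Fin (H + 1))).card =
        ∑ F ∈ hfin.toFinset, (Finset.univ.filter fun t : Fin (H + 1) => fl Γ (g t) = F).card := by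
      refine Finset.card_eq_sum_card_fiberwise fun t _ => ?_
      rw [Finset.mem_coe, Set.Finite.mem_toFinset]
      exact hmemT t
    rw [Finset.card_univ, Fintype.card_fin] at h3
    have h4 : ((H + 1 : ℕ) : ℝ) = ∑ F ∈ hfin.toFinset,
        ((Finset.univ.filter fun t : Fin (H + 1) => fl Γ (g t) = F).card : ℝ) := by
      exact_mod_cast congrArg (Nat.cast : ℕ → ℝ) h3
    push_cast at h4
    rw [h4]
    refine (Finset.sum_le_sum hfib).trans ?_
    rw [Finset.sum_const, nsmul_eq_mul, Set.ncard_eq_toFinset_card _ hfin]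
  have hb := hL0 L hLL0
  have h5 : Real.exp L ≤ (NX Γ T).ncard * Real.exp (L / 2) := by
    calc Real.exp L ≤ (H : ℝ) + 1 := hHlt.le
      _ ≤ (NX Γ T).ncard * (C2 * ρ ^ (n - 1)) := hcount
      _ ≤ _ := mul_le_mul_of_nonneg_left hb (by positivity)
  have h6 : Real.exp L = Real.exp (L / 2) * Real.exp (L / 2) := by
    rw [← Real.exp_add]
    congr 1
    ring
  rw [h6] at h5
  have h7 : Real.exp (L / 2) ≤ (NX Γ T).ncard := le_of_mul_le_mul_right h5 (Real.exp_pos _)
  have h8 : c1 / 2 * T ^ (1 / ((n : ℝ) - 1)) = L / 2 := by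
    rw [hL]
    ring
  rw [h8]
  exact h7

end Pool.FLT
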