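import Pool.Agent.H89.FLT.S

set_option autoImplicit false

open Matrix Polynomial

namespace Pool.FLT

theorem upp (hCOV : COVStmt) (hGEN : GENStmt) (hORB : ORBStmt) (hFBR : FBRStmt) : UPPStmt := by
  intro n hn Γ hΓ
  obtain ⟨C1, hC1, h1⟩ := hGEN n hn
  obtain ⟨C2, h2⟩ := hORB n hn
  have hpp : n.minFac.Prime := Nat.minFac_prime (by omega)
  have hp2 : 2 ≤ n.minFac := hpp.two_le
  have hdiv : n / n.minFac ≤ n / 2 := Nat.div_le_div_left hp2 (by norm_num)
  have heR : (1 : ℝ) ≤ ex n := by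
    rw [ex]
    exact_mod_cast (by omega : 1 ≤ n - n / n.minFac)
  have hf1 : (1 : ℝ) ≤ (n.factorial : ℝ) := by exact_mod_cast Nat.one_le_iff_ne_zero.mpr n.factorial_ne_zero
  refine ⟨Γ.index * C2 + C2 * (C1 * n.factorial) + 1, by positivity, ?_⟩
  intro T hT
  set V : ℝ := n.factorial * T with hV
  have hV1 : 1 ≤ V := by
    rw [hV]
    nlinarith
  set E : ℝ := Real.exp (C1 * V ^ (1 / ex n)) with hE
  have hE1 : 1 ≤ E := by
    rw [hE]
    refine Real.one_le_exp ?_
    have : 0 ≤ V ^ (1 / ex n) := Real.rpow_nonneg (by linarith) _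
    positivity
  obtain ⟨hfin, hcard⟩ := h2 E hE1
  have hsub : NX Γ T ⊆ ⋃ G ∈ OS n E, {F : Set (GR n) | ∃ g : GR n, F = fl Γ g ∧ fl ⊤ g = G} := by
    rintro F ⟨g, hF, B, hB, hBT, hFB⟩
    obtain ⟨B', hB', hvol, hcov⟩ := hCOV n hn Γ g B hB (by rw [← hF, hFB])
    have hvol' : vol n B' ≤ ENNReal.ofReal V := by
      refine hvol.trans ?_
      rw [hV, ENNReal.ofReal_mul (by positivity), ENNReal.ofReal_natCast]
      exact mul_le_mul' le_rfl hBT.le
    obtain ⟨η, d, hD, hinj, hirr, hd⟩ := h1 g B' V hV1 hB' hcov hvol'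
    simp only [Set.mem_iUnion]
    exact ⟨fl ⊤ g, ⟨g, η, d, rfl, hD, hinj, hirr, hd⟩, g, hF, rfl⟩
  have hpiece : ∀ G ∈ OS n E, {F : Set (GR n) | ∃ g : GR n, F = fl Γ g ∧ fl ⊤ g = G}.Finite ∧
      {F : Set (GR n) | ∃ g : GR n, F = fl Γ g ∧ fl ⊤ g = G}.ncard ≤ Γ.index := by
    rintro G ⟨g0, η, d, hG, -⟩
    rw [hG]
    exact hFBR n hn Γ hΓ g0
  have hUfin : (⋃ G ∈ OS n E, {F : Set (GR n) | ∃ g : GR n, F = fl Γ g ∧ fl ⊤ g = G}).Finite :=
    hfin.biUnion fun G hG => (hpiece G hG).1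
  refine ⟨hUfin.subset hsub, ?_⟩
  have hc1 : (NX Γ T).ncard ≤ (OS n E).ncard * Γ.index := by
    classical
    refine (Set.ncard_le_ncard hsub hUfin).trans ?_
    have key : ∀ S : Finset (Set (GR n)), (∀ G ∈ S, G ∈ OS n E) →
        (⋃ G ∈ S, {F : Set (GR n) | ∃ g : GR n, F = fl Γ g ∧ fl ⊤ g = G}).ncard ≤ S.card * Γ.index := by
      intro S
      induction S using Finset.induction_on with
      | empty => simp
      | insert a s ha ih =>
        intro h
        rw [Finset.set_biUnion_insert, Finset.card_insert_of_notMem ha]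
        refine (Set.ncard_union_le _ _).trans ?_
        have h3 := (hpiece a (h a (Finset.mem_insert_self a s))).2
        have h4 := ih fun G hG => h G (Finset.mem_insert_of_mem hG)
        calc _ ≤ Γ.index + s.card * Γ.index := add_le_add h3 h4
          _ = _ := by ring
    have h5 := key hfin.toFinset fun G hG => hfin.mem_toFinset.mp hG
    rw [Set.ncard_eq_toFinset_card (OS n E) hfin]
    simpa using h5
  have hc2 : ((NX Γ T).ncard : ℝ) ≤ (C2 * E ^ C2) * Γ.index := by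
    have h3 : ((NX Γ T).ncard : ℝ) ≤ ((OS n E).ncard : ℝ) * (Γ.index : ℝ) := by exact_mod_cast hc1
    exact h3.trans (mul_le_mul_of_nonneg_right hcard (by positivity))
  refine hc2.trans ?_
  have hT1 : 1 ≤ T ^ (1 / ex n) := Real.one_le_rpow hT (by positivity)
  have hVe : V ^ (1 / ex n) ≤ n.factorial * T ^ (1 / ex n) := by
    rw [hV, Real.mul_rpow (by positivity) (by linarith)]
    refine mul_le_mul_of_nonneg_right ?_ (by linarith)
    calc (n.factorial : ℝ) ^ (1 / ex n) ≤ (n.factorial : ℝ) ^ (1 : ℝ) := by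
          refine Real.rpow_le_rpow_of_exponent_le hf1 ?_
          rw [div_le_one (by linarith)]
          exact heR
      _ = _ := Real.rpow_one _
  have hEp : E ^ C2 ≤ Real.exp (C2 * (C1 * n.factorial) * T ^ (1 / ex n)) := by
    rw [hE, ← Real.exp_nat_mul]
    refine Real.exp_le_exp.mpr ?_
    have h3 : C1 * V ^ (1 / ex n) ≤ C1 * (n.factorial * T ^ (1 / ex n)) :=
      mul_le_mul_of_nonneg_left hVe hC1.le
    calc (C2 : ℝ) * (C1 * V ^ (1 / ex n)) ≤ C2 * (C1 * (n.factorial * T ^ (1 / ex n))) :=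
          mul_le_mul_of_nonneg_left h3 (by positivity)
      _ = _ := by ring
  have h6 : (Γ.index : ℝ) * C2 ≤ Real.exp (Γ.index * C2 * T ^ (1 / ex n)) := by
    have h7 : (Γ.index : ℝ) * C2 ≤ Γ.index * C2 * T ^ (1 / ex n) := by
      have : (0 : ℝ) ≤ Γ.index * C2 := by positivity
      nlinarith
    have h8 := Real.add_one_le_exp (Γ.index * C2 * T ^ (1 / ex n))
    linarith
  calc (C2 * E ^ C2) * Γ.index = (Γ.index * C2) * E ^ C2 := by ring
    _ ≤ Real.exp (Γ.index * C2 * T ^ (1 / ex n)) * Real.exp (C2 * (C1 * n.factorial) * T ^ (1 / ex n)) :=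
        mul_le_mul h6 hEp (by positivity) (Real.exp_pos _).le
    _ = Real.exp ((Γ.index * C2 + C2 * (C1 * n.factorial)) * T ^ (1 / ex n)) := by
        rw [← Real.exp_add]
        congr 1
        ring
    _ ≤ _ := by
        refine Real.exp_le_exp.mpr ?_
        nlinarith

end Pool.FLT
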