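import Pool.Agent.H2.FLT.FIB
import Pool.Agent.H2.FLT.FRK
import Pool.Agent.H5.FLT.ORB
import Pool.Agent.H15.FLT.SQR
import Pool.Agent.H22.FLT.DIA
import Pool.Agent.H22.FLT.INJ
import Pool.Agent.H22.FLT.MEM
import Pool.Agent.H22.FLT.RTS
import Pool.Agent.H23.FLT.NULT
import Pool.Agent.H31.FLT.MM
import Pool.Agent.H34.FLT.EQF
import Pool.Agent.H36.FLT.DIM
import Pool.Agent.H37.FLT.SUB
import Pool.Agent.H44.FLT.MFL
import Pool.Agent.H49.FLT.FBR
import Pool.Agent.H50.FLT.CNT
import Pool.Agent.H50.FLT.MNK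
import Pool.Agent.H50.FLT.PCK
import Pool.Agent.H51.FLT.COV
import Pool.Agent.H54.FLT.LOG
import Pool.Agent.H63.FLT.SEP
import Pool.Agent.H70.FLT.DTW
import Pool.Agent.H71.FLT.GAP
import Pool.Agent.H78.FLT.COL
import Pool.Agent.H82.FLT.MUL
import Pool.Agent.H89.FLT.GEN
import Pool.Agent.H89.FLT.UPP
import Pool.Agent.H89.FLT.LOW
import Pool.Agent.H89.FLT.FIN
import Pool.Agent.H91.FLT.CYC
import Pool.Agent.H99.FLT.IRR

/-!
# The rows of the board flt (MP_e1ba20), put together
-/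

set_option autoImplicit false

namespace Pool.FLT

theorem finAll : FINStmt :=
  have hMON : MONStmt := mon nul
  have hEQF : EQFStmt := eqf hMON
  have hCOV : COVStmt := cov hMON mac sub gap
  have hGEN : GENStmt := gen irr mul sep (pck cnt sub gap frk) dim
  have hORB : ORBStmt := orb mnk dtw cyc (inj (mfl mac))
  have hUPP : UPPStmt := upp hCOV hGEN hORB (fbr hEQF (mfl mac))
  have hMEM : MEMStmt := mem rts dia log sqr (col frk)
  have hFIB : FIBStmt := fib hEQF mac sub gap cnt frk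
  fin hUPP (low hMEM hFIB)

end Pool.FLT
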