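import Mathlib

/-!
# MP_e1ba20: compact flats in `Γ \ SL_n(ℝ) / SO(n)`, definitions
-/

set_option autoImplicit false

open Matrix

namespace Pool.FLT

/-- `SL_n(ℝ)` -/
abbrev GR (n : ℕ) : Type := Matrix.SpecialLinearGroup (Fin n) ℝ

/-- `SL_n(ℤ)` -/
abbrev GZ (n : ℕ) : Type := Matrix.SpecialLinearGroup (Fin n) ℤ

/-- the inclusion of `SL_n(ℤ)` in `SL_n(ℝ)` -/
noncomputable def inc (n : ℕ) : GZ n →* GR n := Matrix.SpecialLinearGroup.map (Int.castRingHom ℝ)

/-- the Lie algebra of the group of diagonal matrices: vectors with sum zero, with the Euclidean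
metric -/
def aa (n : ℕ) : Submodule ℝ (EuclideanSpace ℝ (Fin n)) where
  carrier := {x | ∑ i, x i = 0}
  add_mem' := by
    intro a b ha hb
    simp only [Set.mem_ofPred_eq, PiLp.add_apply, Finset.sum_add_distrib] at *
    rw [ha, hb, add_zero]
  zero_mem' := by simp
  smul_mem' := by
    intro c x hx
    simp only [Set.mem_ofPred_eq, PiLp.smul_apply, smul_eq_mul] at *
    rw [← Finset.mul_sum, hx, mul_zero]

/-- the Euclidean volume on `aa n`: the cube spanned by an orthonormal basis has volume one -/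
noncomputable def vol (n : ℕ) : MeasureTheory.Measure (aa n) :=
  (stdOrthonormalBasis ℝ (aa n)).toBasis.addHaar

/-- the diagonal matrix with entries `exp (x i)` -/
noncomputable def ee {n : ℕ} (x : aa n) : GR n :=
  ⟨Matrix.diagonal fun i => Real.exp ((x : EuclideanSpace ℝ (Fin n)) i), by
    rw [Matrix.det_diagonal, ← Real.exp_sum]
    have h : ∑ i, (x : EuclideanSpace ℝ (Fin n)) i = 0 := x.2
    rw [h, Real.exp_zero]⟩

/-- membership in `K = SO(n)` -/
def inK {n : ℕ} (k : GR n) : Prop := (k : Matrix (Fin n) (Fin n) ℝ) * (k : Matrix (Fin n) (Fin n) ℝ)ᵀ = 1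

/-- the image in `Γ \ G / K` of the part `B` of the flat `g A K`, as a subset of `G` which is
invariant under `Γ` on the left and `K` on the right -/
def flB {n : ℕ} (Γ : Subgroup (GZ n)) (g : GR n) (B : Set (aa n)) : Set (GR n) :=
  {h | ∃ γ ∈ Γ, ∃ x ∈ B, ∃ k : GR n, inK k ∧ h = inc n γ * g * ee x * k}

/-- the flat `Γ g A K` of `X = Γ \ G / K` -/
def fl {n : ℕ} (Γ : Subgroup (GZ n)) (g : GR n) : Set (GR n) := flB Γ g Set.univ

/-- the compact flats of `X = Γ \ SL_n(ℝ) / SO(n)` of volume less than `T` -/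
def NX {n : ℕ} (Γ : Subgroup (GZ n)) (T : ℝ) : Set (Set (GR n)) :=
  {F | ∃ g : GR n, F = fl Γ g ∧ ∃ B : Set (aa n), IsCompact B ∧ vol n B < ENNReal.ofReal T ∧
    F = flB Γ g B}

/-! ### auxiliary notions for the proof -/

/-- every column has at most one nonzero entry -/
def Mono {n : ℕ} (M : Matrix (Fin n) (Fin n) ℝ) : Prop := ∀ i j k, i ≠ j → M i k * M j k = 0

/-- an integer matrix as a real matrix -/
noncomputable def cst {n : ℕ} (η : Matrix (Fin n) (Fin n) ℤ) : Matrix (Fin n) (Fin n) ℝ :=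
  η.map (Int.cast : ℤ → ℝ)

/-- the integer matrix `η` is diagonal in the basis `g`, with eigenvalues `d` -/
def Dg {n : ℕ} (g : GR n) (η : Matrix (Fin n) (Fin n) ℤ) (d : Fin n → ℝ) : Prop :=
  cst η * (g : Matrix (Fin n) (Fin n) ℝ) = (g : Matrix (Fin n) (Fin n) ℝ) * Matrix.diagonal d

/-- logarithms of the absolute values of the eigenvalues of the integer matrices of determinant
`1` or `-1` which are diagonal in the basis `g` -/
def Lam {n : ℕ} (g : GR n) : Set (aa n) :=
  {x | ∃ (η : Matrix (Fin n) (Fin n) ℤ) (d : Fin n → ℝ), Dg g η d ∧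
    ∀ i, |d i| = Real.exp ((x : EuclideanSpace ℝ (Fin n)) i)}

/-- `aa n = Lam g + B'` -/
def Cov {n : ℕ} (g : GR n) (B' : Set (aa n)) : Prop := ∀ x : aa n, ∃ l ∈ Lam g, ∃ b ∈ B', x = l + b

/-- `ρ`-small elements of `Lam g` lie in `W` -/
def Sm {n : ℕ} (g : GR n) (ρ : ℝ) : Set (aa n) := {x | x ∈ Lam g ∧ ‖x‖ ≤ ρ}

end Pool.FLT
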