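import Mathlib

/-!
# MP_e1ba20: compact flats in `Γ \ SL_n(ℝ) / SO(n)`, the definitions of the statement
-/

set_option autoImplicit false

open Matrix

namespace Pool.FLT.Pub

/-- the group `SL_n(ℝ)` -/
abbrev GR (n : ℕ) : Type := Matrix.SpecialLinearGroup (Fin n) ℝ

/-- the group `SL_n(ℤ)` -/
abbrev GZ (n : ℕ) : Type := Matrix.SpecialLinearGroup (Fin n) ℤ

/-- the inclusion of `SL_n(ℤ)` in `SL_n(ℝ)` -/
noncomputable def inc (n : ℕ) : GZ n →* GR n := Matrix.SpecialLinearGroup.map (Int.castRingHom ℝ)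

/-- the vectors of `ℝ^n` with sum zero -/
def sumZero (n : ℕ) : Submodule ℝ (EuclideanSpace ℝ (Fin n)) where
  carrier := {x | ∑ i, x i = 0}
  add_mem' := by
    intro a b ha hb
    simp only [Set.mem_ofPred_eq, PiLp.add_apply, Finset.sum_add_distrib] at *
    rw [ha, hb, add_zero]
  zero_mem' := by simp
  smul_mem' := by
    intro c x hx
    simp only [Set.mem_ofPred_eq, PiLp.smul_apply, smul_eq_mul] at *
    rw [← Finset.mul_sum, hx, mul_zero]

/-- the Lie algebra of the group of diagonal matrices of `SL_n(ℝ)`: the vectors with sum zero, with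
the Euclidean metric `∑ (x i) ^ 2` -/
abbrev LieA (n : ℕ) : Type := sumZero n

/-- the volume of a subset of a Euclidean space: the cube spanned by an orthonormal basis has
volume one -/
noncomputable def eucVol (E : Type) [NormedAddCommGroup E] [InnerProductSpace ℝ E]
    [FiniteDimensional ℝ E] [MeasurableSpace E] [BorelSpace E] (B : Set E) : ENNReal :=
  (stdOrthonormalBasis ℝ E).toBasis.addHaar B

/-- the Euclidean volume of a subset of `LieA n` -/
noncomputable def volA {n : ℕ} (B : Set (LieA n)) : ENNReal := eucVol (LieA n) B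

/-- the coordinates of an element of `LieA n` -/
def coor {n : ℕ} (x : LieA n) (i : Fin n) : ℝ := (x : EuclideanSpace ℝ (Fin n)) i

/-- the diagonal matrix with entries `exp (x i)` -/
noncomputable def expA {n : ℕ} (x : LieA n) : GR n :=
  ⟨Matrix.diagonal fun i => Real.exp (coor x i), by
    rw [Matrix.det_diagonal, ← Real.exp_sum]
    have h : ∑ i, (x : EuclideanSpace ℝ (Fin n)) i = 0 := x.2
    change Real.exp (∑ i, (x : EuclideanSpace ℝ (Fin n)) i) = 1
    rw [h, Real.exp_zero]⟩

/-- membership in `K = SO(n)` -/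
def inK {n : ℕ} (k : GR n) : Prop := (k : Matrix (Fin n) (Fin n) ℝ) * (k : Matrix (Fin n) (Fin n) ℝ)ᵀ = 1

/-- `Γ g exp(B) K`: the image in `Γ \ G / K` of the part `B` of the flat `g A K`, as a subset of `G`
which is invariant under `Γ` on the left and `K` on the right -/
def flB {n : ℕ} (Γ : Subgroup (GZ n)) (g : GR n) (B : Set (LieA n)) : Set (GR n) :=
  {h | ∃ γ ∈ Γ, ∃ x ∈ B, ∃ k : GR n, inK k ∧ h = inc n γ * g * expA x * k}

/-- the flat `Γ g A K` of `X = Γ \ G / K` -/
def fl {n : ℕ} (Γ : Subgroup (GZ n)) (g : GR n) : Set (GR n) := flB Γ g Set.univ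

/-- the compact flats of `X = Γ \ SL_n(ℝ) / SO(n)` of volume less than `T` -/
def NX {n : ℕ} (Γ : Subgroup (GZ n)) (T : ℝ) : Set (Set (GR n)) :=
  {F | ∃ g : GR n, F = fl Γ g ∧ ∃ B : Set (LieA n), IsCompact B ∧ volA B < ENNReal.ofReal T ∧
    F = flB Γ g B}

end Pool.FLT.Pub
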