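import Pool.Agent.H89.FLT.Defs

/-!
# MP_e1ba20: compact flats, statements of the rows

Theorem (row FIN). `n ≥ 2`, `Γ` of finite index in `SL_n(ℤ)`: for large `T` the number of compact
flats of volume `< T` of `Γ \ SL_n(ℝ) / SO(n)` is finite, at least `exp (c T^(1/(n-1)))` and at most
`exp (C T^(1/(n - n/p)))`, `p` the smallest prime factor of `n`.

Each row is a Prop `XXXStmt`; deliver `theorem xxx : XXXStmt` (lower case name) in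
`Pool/Agent/H<nn>/FLT/XXX.lean`; other rows may be used as hypotheses `(h : YYYStmt)`.
Notation in the comments: `e^x` = `ee x`, `a` = `aa n`.
-/

set_option autoImplicit false

open Matrix Polynomial

namespace Pool.FLT

/-- the coordinates of an element of `aa n` -/
abbrev co {n : ℕ} (x : aa n) (i : Fin n) : ℝ := (x : EuclideanSpace ℝ (Fin n)) i

/-- permutation of the coordinates: `(pm σ x) (σ i) = x i` -/
noncomputable def pm {n : ℕ} (σ : Equiv.Perm (Fin n)) (x : aa n) : aa n :=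
  ⟨WithLp.toLp 2 fun i => co x (σ.symm i), by
    have h : ∑ i, co x i = 0 := x.2
    have h2 : ∑ i, co x (σ.symm i) = ∑ i, co x i := Equiv.sum_comp σ.symm (co x)
    have h3 : ∑ i, co x (σ.symm i) = 0 := h2.trans h
    exact h3⟩

/-! ### Measure and flats -/

/-- NUL. Take `k` with `c k ≠ 0`, `j ≠ k`, `v = e_k - e_j ∈ a`. On a line `x + t v` the function is
`A u^2 + B u + C` divided by `u`, `u = exp (2 t)`, `A ≠ 0`: at most two zeros. So a point lies in at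
most two of the translates `S + t v`, `t ∈ [0,1]`; for `S ∩ ball R` and `N` translates
`N vol (S ∩ ball R) ≤ 2 vol (ball (R + 2))`, `N` arbitrary. -/
def NULStmt : Prop := ∀ n : ℕ, 2 ≤ n → ∀ c : Fin n → ℝ, c ≠ 0 →
  vol n {x : aa n | ∑ k, c k * Real.exp (2 * co x k) = 0} = 0

/-- MON (from NUL). `(N e^x)(N e^x)ᵀ = e^(2y)`, so `∑_k N i k * N j k * exp (2 x k) = 0` for `i ≠ j`. -/
def MONStmt : Prop := ∀ n : ℕ, 2 ≤ n → ∀ N : GR n, ¬ Mono (N : Matrix (Fin n) (Fin n) ℝ) →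
  vol n {x : aa n | ∃ (y : aa n) (k : GR n), inK k ∧ N * ee x = ee y * k} = 0

/-- MAC: a monomial matrix acts on the flat by a permutation and a translation. `M e_k = d_k e_(σ k)`;
`y (σ k) = x k + log |d_k|`, `k = e^(-y) M e^x` is a signed permutation matrix. Uniqueness of `y`:
`e^(2y) = (M e^x)(M e^x)ᵀ`. -/
def MACStmt : Prop := ∀ (n : ℕ) (M : GR n), Mono (M : Matrix (Fin n) (Fin n) ℝ) →
  ∃ (σ : Equiv.Perm (Fin n)) (t : aa n), (∀ x : aa n, ∃ k : GR n, inK k ∧ M * ee x = ee (pm σ x + t) * k) ∧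
    (∀ (x y : aa n) (k : GR n), inK k → M * ee x = ee y * k → y = pm σ x + t) ∧
    (∀ d : Fin n → ℝ, (M : Matrix (Fin n) (Fin n) ℝ) * diagonal d =
      diagonal (fun i => d (σ.symm i)) * (M : Matrix (Fin n) (Fin n) ℝ))

/-- MFL (from MAC) -/
def MFLStmt : Prop := ∀ (n : ℕ) (Γ : Subgroup (GZ n)) (g M : GR n),
  Mono (M : Matrix (Fin n) (Fin n) ℝ) → fl Γ (g * M) = fl Γ g

/-- EQF (from MON). For every `x` there is `γ` with `g e^x = γ g0 e^y k`; countably many `γ`, so for one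
of them the set of `x` is not null, and `M = (γ g0)⁻¹ g` is monomial. -/
def EQFStmt : Prop := ∀ n : ℕ, 2 ≤ n → ∀ g g0 : GR n, fl ⊤ g = fl ⊤ g0 →
  ∃ (γ : GZ n) (M : GR n), Mono (M : Matrix (Fin n) (Fin n) ℝ) ∧ g = inc n γ * g0 * M

/-- FBR (from EQF, MFL). `g = γ g0 M`, so `fl Γ g = fl Γ (γ g0)` depends on the coset `Γ γ` only. -/
def FBRStmt : Prop := ∀ n : ℕ, 2 ≤ n → ∀ Γ : Subgroup (GZ n), Γ.index ≠ 0 → ∀ g0 : GR n,
  {F : Set (GR n) | ∃ g : GR n, F = fl Γ g ∧ fl ⊤ g = fl ⊤ g0}.Finite ∧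
  {F : Set (GR n) | ∃ g : GR n, F = fl Γ g ∧ fl ⊤ g = fl ⊤ g0}.ncard ≤ Γ.index

/-! ### The group `Lam g` -/

/-- SUB. `det η = ± 1` because `∏ |d i| = 1`. -/
def SUBStmt : Prop := ∀ (n : ℕ) (g : GR n), ∃ L : AddSubgroup (aa n), (L : Set (aa n)) = Lam g

/-- GAP. `trace (η^2) = ∑ exp (2 x i)` is an integer, `> n` if `x ≠ 0` (`exp t > 1 + t`), so `≥ n + 1`;
`c0 = log (1 + 1/n) / 2`. -/
def GAPStmt : Prop := ∀ n : ℕ, 2 ≤ n → ∃ c0 : ℝ, 0 < c0 ∧ ∀ g : GR n, ∀ x ∈ Lam g, x ≠ 0 → c0 ≤ ‖x‖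

/-- COV (from MON, MAC, SUB, GAP). For `x ∈ a`: `N e^x = e^y k`, `y ∈ B`, `N = g⁻¹ γ⁻¹ g`, `γ ∈ Γ`.
Non-monomial `N`: a null set of `x` (MON, countably many). Monomial `N` with data `(σ, t)`: choose for
every permutation `σ` which occurs one `γ_σ` with data `(σ, t_σ)`; then `x = pm σ⁻¹ (y - t)` and
`N_σ⁻¹ N = g⁻¹ γ_σ γ⁻¹ g` is diagonal up to signs with data `pm σ⁻¹ (t - t_σ) ∈ Lam g`, so
`x ∈ Lam g + pm σ⁻¹ (B - t_σ)`. `B' = ⋃ pm σ⁻¹ (B - t_σ)`. `Lam g + B'` is closed (SUB, GAP) and its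
complement is null and open, so empty. -/
def COVStmt : Prop := ∀ n : ℕ, 2 ≤ n → ∀ (Γ : Subgroup (GZ n)) (g : GR n) (B : Set (aa n)),
  IsCompact B → fl Γ g = flB Γ g B →
  ∃ B' : Set (aa n), IsCompact B' ∧ vol n B' ≤ (n.factorial : ENNReal) * vol n B ∧ Cov g B'

/-- the characteristic polynomial over `ℚ` -/
noncomputable def chQ {n : ℕ} (η : Matrix (Fin n) (Fin n) ℤ) : ℚ[X] := η.charpoly.map (Int.castRingHom ℚ)

/-- IRR. Take `z = s (n - 1, -1, ..., -1)`, `s` large, `z = l + b`, `η, d` for `l`. If the characteristic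
polynomial is a product of two monic nonconstant integer polynomials, their constant terms are
`± 1` and `∑_(i ∈ I) l i = 0` for a proper nonempty `I`; but `|∑_(i ∈ I) z i| ≥ s`. Then Gauss. -/
def IRRStmt : Prop := ∀ n : ℕ, 2 ≤ n → ∀ (g : GR n) (B' : Set (aa n)), IsCompact B' → Cov g B' →
  ∃ (η : Matrix (Fin n) (Fin n) ℤ) (d : Fin n → ℝ), Dg g η d ∧ Irreducible (chQ η)

/-- MUL. `η` commutes with `η0` (both diagonal in the basis `g`), whose characteristic polynomial is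
irreducible, so `ℚ^n` has no proper `η0`-invariant subspace and the kernel of `A(η)` is `0` or `ℚ^n`
for every polynomial `A`: the minimal polynomial `μ` of `η` is irreducible and the characteristic
polynomial is a power of it; `μ` is separable and the characteristic polynomial is `∏ (X - d i)`. -/
def MULStmt : Prop := ∀ n : ℕ, 2 ≤ n → ∀ (g : GR n) (η0 η : Matrix (Fin n) (Fin n) ℤ) (d0 d : Fin n → ℝ),
  Dg g η0 d0 → Irreducible (chQ η0) → Dg g η d →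
  ∃ (k : ℕ) (μ : ℚ[X]), Irreducible μ ∧ chQ η = μ ^ k ∧
    ∀ i, (Finset.univ.filter fun j => d j = d i).card = k

/-- SEP. For every pair `(i, j)` which is separated by some `x ∈ Sm g ρ` take one such `x` with its
`η_(ij)`, `d_(ij)` (then `d i ≠ d j`); `η = ∑ m_(ij) η_(ij)` with naturals `m_(ij) = τ^(index of (ij))`, `τ ≤ n^4`
avoiding the roots of at most `n^2` nonzero polynomials of degree `< n^2`. -/
def SEPStmt : Prop := ∀ n : ℕ, ∃ C : ℝ, 0 < C ∧ ∀ (g : GR n) (ρ : ℝ), 0 ≤ ρ →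
  ∃ (η : Matrix (Fin n) (Fin n) ℤ) (d : Fin n → ℝ), Dg g η d ∧ (∀ i, |d i| ≤ C * Real.exp ρ) ∧
    ∀ i j, d i = d j → ∀ x ∈ Sm g ρ, co x i = co x j

/-- CNT: separated points of a ball in dimension `m` (volume of disjoint balls) -/
def CNTStmt : Prop := ∀ (m : ℕ) (c0 : ℝ), 0 < c0 → ∃ C : ℝ, 0 < C ∧
  ∀ (E : Type) [NormedAddCommGroup E] [InnerProductSpace ℝ E] [FiniteDimensional ℝ E],
  Module.finrank ℝ E = m → ∀ (S : Set E) (ρ : ℝ), 1 ≤ ρ → (∀ x ∈ S, ‖x‖ ≤ ρ) →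
  (∀ x ∈ S, ∀ y ∈ S, x ≠ y → c0 ≤ dist x y) → S.Finite ∧ (S.ncard : ℝ) ≤ C * ρ ^ m

/-- FRK -/
def FRKStmt : Prop := ∀ n : ℕ, 1 ≤ n → Module.finrank ℝ (aa n) = n - 1

/-- PCK (from CNT, SUB, GAP, FRK). `U` = ball of radius `ρ/2`: `U ⊆ ⋃ (l + B')`, so
`vol U ≤ ∑_l vol ((U - l) ∩ B') ≤ #(Lam g ∩ (U - U)) vol B'`, and `Lam g ∩ (U - U) ⊆ Sm g ρ` has at most
`C ρ^(dim W)` elements. -/
def PCKStmt : Prop := ∀ n : ℕ, 2 ≤ n → ∃ C : ℝ, 0 < C ∧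
  ∀ (g : GR n) (B' : Set (aa n)) (V ρ : ℝ) (W : Submodule ℝ (aa n)), IsCompact B' → Cov g B' → 0 ≤ V →
  vol n B' ≤ ENNReal.ofReal V → 1 ≤ ρ → Sm g ρ ⊆ (W : Set (aa n)) →
  ρ ^ (n - 1 - Module.finrank ℝ W) ≤ C * V

/-- vectors which are constant on the classes of `d` -/
def Wd {n : ℕ} (d : Fin n → ℝ) : Submodule ℝ (aa n) where
  carrier := {x | ∀ i j, d i = d j → co x i = co x j}
  add_mem' := by
    intro a b ha hb i j h
    have h1 := ha i j h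
    have h2 := hb i j h
    simp only [co, Submodule.coe_add, PiLp.add_apply] at *
    rw [h1, h2]
  zero_mem' := by
    intro i j _
    simp [co]
  smul_mem' := by
    intro c x hx i j h
    have h1 := hx i j h
    simp only [co, Submodule.coe_smul, PiLp.smul_apply, smul_eq_mul] at *
    rw [h1]

/-- DIM: `q` classes, the sum of the coordinates is zero -/
def DIMStmt : Prop := ∀ (n k q : ℕ) (d : Fin n → ℝ), 1 ≤ n → n = k * q →
  (∀ i, (Finset.univ.filter fun j => d j = d i).card = k) → Module.finrank ℝ (Wd d) + 1 ≤ q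

/-- the exponent `n - n/p` -/
noncomputable def ex (n : ℕ) : ℝ := ((n - n / n.minFac : ℕ) : ℝ)

/-- GEN (from IRR, MUL, SEP, PCK, DIM). Take `ρ ≥ 1` with `ρ^(n - n/p) > C1 V` and `η, d` of SEP. MUL
(with IRR) gives `k`. `k = 1`: done. `k ≥ 2`: `q = n / k ≤ n / p`, `Sm g ρ ⊆ Wd d`, so
`ρ^(n - n/p) ≤ ρ^(n - q) ≤ C1 V` by PCK, a contradiction. -/
def GENStmt : Prop := ∀ n : ℕ, 2 ≤ n → ∃ C : ℝ, 0 < C ∧
  ∀ (g : GR n) (B' : Set (aa n)) (V : ℝ), 1 ≤ V → IsCompact B' → Cov g B' →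
  vol n B' ≤ ENNReal.ofReal V →
  ∃ (η : Matrix (Fin n) (Fin n) ℤ) (d : Fin n → ℝ), Dg g η d ∧ Function.Injective d ∧
    Irreducible (chQ η) ∧ ∀ i, |d i| ≤ Real.exp (C * V ^ (1 / ex n))

/-! ### Counting the classes of integer matrices -/

/-- MNK: Minkowski for the box `|(g⁻¹ v) i| ≤ 2` -/
def MNKStmt : Prop := ∀ n : ℕ, 1 ≤ n → ∀ g : GR n, ∃ v : Fin n → ℤ, v ≠ 0 ∧
  ∀ i, |(((g⁻¹ : GR n) : Matrix (Fin n) (Fin n) ℝ).mulVec fun j => (v j : ℝ)) i| ≤ 2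

/-- the matrix with columns `v, η v, η² v, ...` -/
def Wm {n : ℕ} (η : Matrix (Fin n) (Fin n) ℤ) (v : Fin n → ℤ) : Matrix (Fin n) (Fin n) ℤ :=
  Matrix.of fun i j => ((η ^ (j : ℕ)).mulVec v) i

/-- DTW: `cst (Wm η v) = g * diagonal (g⁻¹ v) * vandermonde d` -/
def DTWStmt : Prop := ∀ (n : ℕ) (g : GR n) (η : Matrix (Fin n) (Fin n) ℤ) (d : Fin n → ℝ)
  (v : Fin n → ℤ), Dg g η d →
  (((Wm η v).det : ℤ) : ℝ) =
    (∏ i, (((g⁻¹ : GR n) : Matrix (Fin n) (Fin n) ℝ).mulVec fun j => (v j : ℝ)) i) *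
      (Matrix.vandermonde d).det

/-- CYC: a nonzero vector is cyclic -/
def CYCStmt : Prop := ∀ (n : ℕ) (η : Matrix (Fin n) (Fin n) ℤ) (v : Fin n → ℤ),
  Irreducible (chQ η) → v ≠ 0 → (Wm η v).det ≠ 0

/-- INJ (from MFL). `W = Wm η v`, `W' = Wm η' v'`, `m = det W`: `η W = W C`, `η' W' = W' C` with the same
companion matrix `C` (Cayley-Hamilton). `W' = W + m E = (1 + E adj(W)) W`, `U = 1 + E adj(W)` has
determinant one, `η' = U η U⁻¹`, `M = (U g)⁻¹ g'` satisfies `diagonal d * M = M * diagonal d'`, so it is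
monomial (`d` is injective), and `fl ⊤ g' = fl ⊤ (U g M) = fl ⊤ g`. -/
def INJStmt : Prop := ∀ (n : ℕ) (g g' : GR n) (η η' : Matrix (Fin n) (Fin n) ℤ) (d d' : Fin n → ℝ)
  (v v' : Fin n → ℤ), Dg g η d → Dg g' η' d' → Function.Injective d → η.charpoly = η'.charpoly →
  (Wm η v).det = (Wm η' v').det → (Wm η v).det ≠ 0 →
  (∀ i j, (Wm η v).det ∣ (Wm η' v') i j - (Wm η v) i j) → fl ⊤ g = fl ⊤ g'

/-- the flats of `SL_n(ℤ) \ SL_n(ℝ) / SO(n)` with a generator of size `E` -/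
def OS (n : ℕ) (E : ℝ) : Set (Set (GR n)) :=
  {F | ∃ (g : GR n) (η : Matrix (Fin n) (Fin n) ℤ) (d : Fin n → ℝ), F = fl ⊤ g ∧ Dg g η d ∧
    Function.Injective d ∧ Irreducible (chQ η) ∧ ∀ i, |d i| ≤ E}

/-- ORB (from MNK, DTW, CYC, INJ). `F` is determined by the characteristic polynomial (coefficients
`≤ (2E)^n`), `m = det (Wm η v)`, `|m| ≤ 2^n (2E)^(n^2)`, and the matrix `Wm η v` modulo `m`. -/
def ORBStmt : Prop := ∀ n : ℕ, 2 ≤ n → ∃ C : ℕ, ∀ E : ℝ, 1 ≤ E →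
  (OS n E).Finite ∧ ((OS n E).ncard : ℝ) ≤ C * E ^ C

/-- UPP (from COV, GEN, ORB, FBR) -/
def UPPStmt : Prop := ∀ n : ℕ, 2 ≤ n → ∀ Γ : Subgroup (GZ n), Γ.index ≠ 0 → ∃ C : ℝ, 0 < C ∧
  ∀ T : ℝ, 1 ≤ T → (NX Γ T).Finite ∧ ((NX Γ T).ncard : ℝ) ≤ Real.exp (C * T ^ (1 / ex n))

/-! ### Lower bound -/

/-- RTS: sign changes of `∏ (x - a j) + 1` at `a i ± 1/2`, where the product is at least
`(1/2) (7/2)^(n-1) > 1` in absolute value and has opposite signs -/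
def RTSStmt : Prop := ∀ n : ℕ, 2 ≤ n → ∀ a : Fin n → ℤ, (∀ i j, i < j → a i + 4 ≤ a j) →
  ∃ θ : Fin n → ℝ, (∀ i, |θ i - a i| < 1 / 2) ∧
    ((∏ j, (X - C (a j : ℝ))) + 1 : ℝ[X]) = ∏ i, (X - C (θ i))

/-- DIA: companion matrix, eigenvectors `(1, θ, θ², ...)` of its transpose; one column is divided by
the determinant -/
def DIAStmt : Prop := ∀ n : ℕ, 1 ≤ n → ∀ (P : ℤ[X]) (θ : Fin n → ℝ), P.Monic → P.natDegree = n →
  Function.Injective θ → P.map (Int.castRingHom ℝ) = ∏ i, (X - C (θ i)) →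
  ∃ (η : Matrix (Fin n) (Fin n) ℤ) (g : GR n), Dg g η θ ∧ η.charpoly = P

/-- SQR: `η^(2m) ∈ Γ`, `m = (index of Γ)!` -/
def SQRStmt : Prop := ∀ (n : ℕ) (Γ : Subgroup (GZ n)), Γ.index ≠ 0 → ∃ m : ℕ, 0 < m ∧
  ∀ (g : GR n), ∀ x ∈ Lam g, ∃ γ ∈ Γ, inc n γ * g = g * ee ((2 * m : ℝ) • x)

/-- COL (from FRK): integer and fractional parts in a basis -/
def COLStmt : Prop := ∀ n : ℕ, 2 ≤ n → ∀ (y : Fin (n - 1) → aa n) (r : ℝ), LinearIndependent ℝ y →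
  (∀ j, ‖y j‖ ≤ r) → ∀ x : aa n, ∃ (m : Fin (n - 1) → ℤ) (b : aa n), ‖b‖ ≤ n * r ∧
    x = ∑ j, (m j : ℝ) • y j + b

/-- the integers `a j = 2 j H`, except `a 1 = 2 H + t` -/
def aH (n H t : ℕ) (j : Fin n) : ℤ := 2 * (j : ℕ) * H + if (j : ℕ) = 1 then (t : ℤ) else 0

/-- `∏ (X - a j) + 1` -/
noncomputable def PH (n H t : ℕ) : ℤ[X] := (∏ j : Fin n, (X - C (aH n H t j))) + 1

/-- LOG. `log |θ i - a j| = log H + O(1)` for `i ≠ j`, the sum over `i` is `0` because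
`∏_i (a j - θ i) = 1`, so the term `i = j` is `-(n - 1) log H + O(1)`; the matrix of the first `n - 1` rows
and columns is strictly diagonally dominant for large `H`. -/
def LOGStmt : Prop := ∀ n : ℕ, 2 ≤ n → ∃ (C : ℝ) (H0 : ℕ), 0 < C ∧ ∀ H t : ℕ, H0 ≤ H → t ≤ H →
  ∀ θ : Fin n → ℝ, (∀ i, |θ i - aH n H t i| < 1 / 2) →
  ((∏ j, (X - Polynomial.C (aH n H t j : ℝ))) + 1 : ℝ[X]) = ∏ i, (X - Polynomial.C (θ i)) →
  ∃ y : Fin n → aa n, (∀ i j, |θ i - aH n H t j| = Real.exp (co (y j) i)) ∧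
    (∀ j, ‖y j‖ ≤ C * Real.log H) ∧
    LinearIndependent ℝ fun j : Fin (n - 1) => y (Fin.castLE (Nat.sub_le n 1) j)

/-- MEM (from RTS, DIA, LOG, SQR, COL). `y j ∈ Lam g` (integer matrix `η - a j`); `2 m (y j)` are
translations by elements of `Γ`; `B` = closed ball of radius `n * 2 m C log H`, of volume
`C' (log H)^(n-1)`. `a 0 = 0`, so `log |θ i| = y 0 i`. -/
def MEMStmt : Prop := ∀ n : ℕ, 2 ≤ n → ∀ Γ : Subgroup (GZ n), Γ.index ≠ 0 → ∃ (C : ℝ) (H0 : ℕ), 0 < C ∧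
  ∀ H t : ℕ, H0 ≤ H → t ≤ H → ∃ (g : GR n) (η : Matrix (Fin n) (Fin n) ℤ) (θ : Fin n → ℝ),
    Dg g η θ ∧ η.charpoly = PH n H t ∧
    (∃ x ∈ Lam g, ‖x‖ ≤ C * Real.log H ∧ ∀ i, |θ i| = Real.exp (co x i)) ∧
    ∀ T : ℝ, C * (Real.log H) ^ (n - 1) < T → fl Γ g ∈ NX Γ T

/-- FIB (from EQF, MAC, SUB, GAP, CNT, FRK). `g = γ g0 M`; `γ⁻¹ η γ` is diagonal in the basis `g0` with the
same eigenvalues in another order and the same characteristic polynomial, and a matrix which is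
diagonal in the basis `g0` is determined by its eigenvalues: at most `2^n #(Sm g0 ρ)`. -/
def FIBStmt : Prop := ∀ n : ℕ, 2 ≤ n → ∃ C : ℝ, 0 < C ∧ ∀ (ρ : ℝ) (g0 : GR n), 1 ≤ ρ →
  {P : ℤ[X] | ∃ (g : GR n) (η : Matrix (Fin n) (Fin n) ℤ) (θ : Fin n → ℝ), Dg g η θ ∧ η.charpoly = P ∧
    fl ⊤ g = fl ⊤ g0 ∧ ∃ x ∈ Lam g, ‖x‖ ≤ ρ ∧ ∀ i, |θ i| = Real.exp (co x i)}.Finite ∧
  ({P : ℤ[X] | ∃ (g : GR n) (η : Matrix (Fin n) (Fin n) ℤ) (θ : Fin n → ℝ), Dg g η θ ∧ η.charpoly = P ∧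
    fl ⊤ g = fl ⊤ g0 ∧ ∃ x ∈ Lam g, ‖x‖ ≤ ρ ∧ ∀ i, |θ i| = Real.exp (co x i)}.ncard : ℝ) ≤ C * ρ ^ (n - 1)

/-- LOW (from MEM, FIB). `H = ⌊exp (c1 T^(1/(n-1)))⌋`; the `H + 1` polynomials `PH n H t`, `t ≤ H`, are
different (`PH n H t` has the value `1` at `2 H + t`, and there only this one of them); equal flats
`fl Γ g` give equal `fl ⊤ g`, so by FIB at most `C (log H)^(n-1)` of the `t` give the same flat. -/
def LOWStmt : Prop := ∀ n : ℕ, 2 ≤ n → ∀ Γ : Subgroup (GZ n), Γ.index ≠ 0 → ∃ (c T0 : ℝ), 0 < c ∧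
  ∀ T : ℝ, T0 ≤ T → (NX Γ T).Finite → Real.exp (c * T ^ (1 / ((n : ℝ) - 1))) ≤ ((NX Γ T).ncard : ℝ)

/-- FIN (from UPP, LOW) -/
def FINStmt : Prop := ∀ n : ℕ, 2 ≤ n → ∀ Γ : Subgroup (GZ n), Γ.index ≠ 0 →
  ∃ (c C T0 : ℝ), 0 < c ∧ 0 < C ∧ ∀ T : ℝ, T0 ≤ T → (NX Γ T).Finite ∧
    Real.exp (c * T ^ (1 / ((n : ℝ) - 1))) ≤ ((NX Γ T).ncard : ℝ) ∧
    ((NX Γ T).ncard : ℝ) ≤ Real.exp (C * T ^ (1 / ((n - n / n.minFac : ℕ) : ℝ)))

end Pool.FLT
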