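import Mathlib

/-!
# MP_e1ba20: compact flats in `Γ \ SL_n(ℝ) / SO(n)`, the definitions of the statement
-/

set_option autoImplicit false

open Matrix MeasureTheory

namespace Pool.FLT.Slim

variable {n : ℕ} {E : Type} [NormedAddCommGroup E] [InnerProductSpace ℝ E]

/-- `E`, with the coordinates `x v 0, ..., x v (n - 1)` of its vectors `v`, is the Lie algebra of the
group `A` of positive diagonal matrices of determinant one: all vectors of `ℝ^n` of sum zero, with the
Euclidean norm -/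
def Lie (x : E → Fin n → ℝ) : Prop :=
  (∀ u v : E, x (u + v) = x u + x v) ∧ (∀ a : Fin n → ℝ, (∃ v, x v = a) ↔ ∑ i, a i = 0) ∧
    ∀ v, ‖v‖ ^ 2 = ∑ i, x v i ^ 2

/-- `Γ g exp(B) SO(n)` -/
def flat (Γ : Subgroup (SpecialLinearGroup (Fin n) ℤ)) (x : E → Fin n → ℝ)
    (g : SpecialLinearGroup (Fin n) ℝ) (B : Set E) : Set (SpecialLinearGroup (Fin n) ℝ) :=
  {h | ∃ γ ∈ Γ, ∃ v ∈ B, ∃ k : SpecialLinearGroup (Fin n) ℝ, k.1 * k.1ᵀ = 1 ∧
    h.1 = (γ.1.map fun z : ℤ => (z : ℝ)) * g.1 * diagonal (fun i => Real.exp (x v i)) * k.1}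

/-- the compact flats of volume less than `T`: the flats `Γ g A SO(n)` that are equal to
`Γ g exp(B) SO(n)` for a compact set `B` of volume less than `T` -/
def flats [FiniteDimensional ℝ E] [MeasurableSpace E] [BorelSpace E]
    (Γ : Subgroup (SpecialLinearGroup (Fin n) ℤ)) (x : E → Fin n → ℝ) (T : ℝ) :
    Set (Set (SpecialLinearGroup (Fin n) ℝ)) :=
  {F | ∃ g, F = flat Γ x g Set.univ ∧ ∃ B : Set E, IsCompact B ∧ volume B < ENNReal.ofReal T ∧
    F = flat Γ x g B}

end Pool.FLT.Slim
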