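import Pool.Agent.H89.FLT.All
import Pool.Agent.H89.FLT.Pub
import Pool.Agent.H89.FLT.Slim

/-!
# MP_e1ba20: the statement for any model of the Lie algebra
-/

set_option autoImplicit false

open Matrix MeasureTheory

namespace Pool.FLT.Slim

variable {n : ℕ} {E : Type} [NormedAddCommGroup E] [InnerProductSpace ℝ E]

/-- the isometry with the model `LieA n` -/
theorem iso (x : E → Fin n → ℝ) (hx : Lie x) :
    ∃ L : E ≃ₗᵢ[ℝ] Pub.LieA n, ∀ v i, Pub.coor (L v) i = x v i := by
  obtain ⟨hadd, hsurj, hnorm⟩ := hx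
  have hs : ∀ v, ∑ i, x v i = 0 := fun v => (hsurj (x v)).1 ⟨v, rfl⟩
  let f : E → Pub.LieA n := fun v => ⟨WithLp.toLp 2 (x v), hs v⟩
  have hco : ∀ v i, Pub.coor (f v) i = x v i := fun v i => rfl
  have hf_add : ∀ u v, f (u + v) = f u + f v := by
    intro u v
    apply Subtype.ext
    ext i
    change x (u + v) i = x u i + x v i
    rw [hadd]
    rfl
  let F : E →+ Pub.LieA n := AddMonoidHom.mk' f hf_add
  have hFn : ∀ v, ‖F v‖ = ‖v‖ := by
    intro v
    have h1 : ‖F v‖ ^ 2 = ‖v‖ ^ 2 := by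
      rw [hnorm v]
      change ‖(WithLp.toLp 2 (x v) : EuclideanSpace ℝ (Fin n))‖ ^ 2 = _
      rw [EuclideanSpace.norm_sq_eq]
      refine Finset.sum_congr rfl fun i _ => ?_
      rw [Real.norm_eq_abs, sq_abs]
    exact (sq_eq_sq₀ (norm_nonneg _) (norm_nonneg _)).1 h1
  have hiso : Isometry F := AddMonoidHomClass.isometry_of_norm F hFn
  let FL : E →L[ℝ] Pub.LieA n := F.toRealLinearMap hiso.continuous
  let FI : E →ₗᵢ[ℝ] Pub.LieA n := ⟨FL.toLinearMap, hFn⟩
  have hsj : Function.Surjective FI := by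
    intro w
    obtain ⟨v, hv⟩ := (hsurj (fun i => Pub.coor w i)).2 w.2
    refine ⟨v, ?_⟩
    apply Subtype.ext
    ext i
    exact congrFun hv i
  exact ⟨LinearIsometryEquiv.ofSurjective FI hsj, fun v i => rfl⟩

theorem flat_eq (Γ : Subgroup (SpecialLinearGroup (Fin n) ℤ)) (x : E → Fin n → ℝ)
    (L : E ≃ₗᵢ[ℝ] Pub.LieA n) (hL : ∀ v i, Pub.coor (L v) i = x v i)
    (g : SpecialLinearGroup (Fin n) ℝ) (B : Set E) : flat Γ x g B = Pub.flB Γ g (L '' B) := by
  ext h
  constructor
  · rintro ⟨γ, hγ, v, hv, k, hk, hh⟩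
    refine ⟨γ, hγ, L v, ⟨v, hv, rfl⟩, k, hk, ?_⟩
    apply Subtype.ext
    rw [hh]
    have : (Pub.expA (L v) : SpecialLinearGroup (Fin n) ℝ).1 =
        diagonal (fun i => Real.exp (x v i)) := by
      change diagonal (fun i => Real.exp (Pub.coor (L v) i)) = _
      simp only [hL]
    rw [← this]
    rfl
  · rintro ⟨γ, hγ, w, ⟨v, hv, rfl⟩, k, hk, hh⟩
    refine ⟨γ, hγ, v, hv, k, hk, ?_⟩
    rw [hh]
    have : (Pub.expA (L v) : SpecialLinearGroup (Fin n) ℝ).1 =
        diagonal (fun i => Real.exp (x v i)) := by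
      change diagonal (fun i => Real.exp (Pub.coor (L v) i)) = _
      simp only [hL]
    rw [← this]
    rfl

theorem vol_eq [FiniteDimensional ℝ E] [MeasurableSpace E] [BorelSpace E]
    (L : E ≃ₗᵢ[ℝ] Pub.LieA n) (B : Set E) : Pub.volA (L '' B) = volume B := by
  have h1 : Pub.volA (L '' B) = volume (L '' B) := by
    unfold Pub.volA Pub.eucVol
    rw [OrthonormalBasis.addHaar_eq_volume]
  rw [h1]
  have h3 : MeasurePreserving (L.toMeasurableEquiv) (volume : Measure E)
      (volume : Measure (Pub.LieA n)) := L.measurePreserving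
  have h2 := h3.measure_preimage_equiv (L '' B)
  rw [← h2]
  congr 1
  exact Set.preimage_image_eq B L.injective

theorem flats_eq [FiniteDimensional ℝ E] [MeasurableSpace E] [BorelSpace E]
    (Γ : Subgroup (SpecialLinearGroup (Fin n) ℤ)) (x : E → Fin n → ℝ) (hx : Lie x) (T : ℝ) :
    flats Γ x T = Pub.NX Γ T := by
  obtain ⟨L, hL⟩ := iso x hx
  ext F
  constructor
  · rintro ⟨g, hg, B, hB, hv, hF⟩
    refine ⟨g, ?_, L '' B, hB.image L.continuous, ?_, ?_⟩
    · rw [hg, flat_eq Γ x L hL, Set.image_univ, L.surjective.range_eq]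
      rfl
    · rw [vol_eq]; exact hv
    · rw [hF, flat_eq Γ x L hL]
  · rintro ⟨g, hg, B, hB, hv, hF⟩
    refine ⟨g, ?_, L.symm '' B, hB.image L.symm.continuous, ?_, ?_⟩
    · rw [flat_eq Γ x L hL, Set.image_univ, L.surjective.range_eq, hg]
      rfl
    · rw [← vol_eq L, ← Set.image_comp]
      have : (L : E → Pub.LieA n) ∘ L.symm = id := by
        ext1 v
        exact L.apply_symm_apply v
      rw [this, Set.image_id]
      exact hv
    · rw [flat_eq Γ x L hL, ← Set.image_comp]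
      have : (L : E → Pub.LieA n) ∘ L.symm = id := by
        ext1 v
        exact L.apply_symm_apply v
      rw [this, Set.image_id, hF]

end Pool.FLT.Slim
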